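import Pool.Agent.helper38.VA.Spec

/-!
Row va:CLN: a space of commuting nilpotent matrices moves a stable subspace into a smaller one.
-/

set_option autoImplicit false

namespace Pool.Agent.VA

open Matrix Module Pool.Agent.PR Pool.Agent.H48SL

/-- image of `I` under `X` -/
def CLN_im {n : ℕ} (I : Submodule ℚ (Fin n → ℚ)) (X : MQ n) : Submodule ℚ (Fin n → ℚ) :=
  I.map X.mulVecLin

theorem CLN_mem {n : ℕ} {I : Submodule ℚ (Fin n → ℚ)} {X : MQ n} {v : Fin n → ℚ} (hv : v ∈ I) :
    X *ᵥ v ∈ CLN_im I X := ⟨v, hv, rfl⟩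

open Classical in
theorem CLN_fin {n : ℕ} (W : Submodule ℚ (MQ n)) (hn : ∀ X ∈ W, IsNilpotent X)
    (hc : ∀ X ∈ W, ∀ Y ∈ W, X * Y = Y * X) (I : Submodule ℚ (Fin n → ℚ))
    (hI : ∀ X ∈ W, ∀ v ∈ I, X *ᵥ v ∈ I) (T : Finset (MQ n)) :
    (∀ X ∈ T, X ∈ W) → I ≤ T.sup (CLN_im I) → I = ⊥ := by
  induction T using Finset.induction_on with
  | empty =>
    intro _ h
    exact le_bot_iff.1 (by simpa using h)
  | insert Y T hY ih =>
    intro hW h
    have hYW : Y ∈ W := hW Y (Finset.mem_insert_self Y T)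
    have hTW : ∀ X ∈ T, X ∈ W := fun X hX => hW X (Finset.mem_insert_of_mem hX)
    refine ih hTW ?_
    rw [Finset.sup_insert] at h
    have hK : ∀ u ∈ T.sup (CLN_im I), Y *ᵥ u ∈ T.sup (CLN_im I) := by
      have : T.sup (CLN_im I) ≤ (T.sup (CLN_im I)).comap Y.mulVecLin := by
        refine Finset.sup_le fun X hX => ?_
        rintro _ ⟨u, hu, rfl⟩
        rw [Submodule.mem_comap, Matrix.mulVecLin_apply, Matrix.mulVecLin_apply, Matrix.mulVec_mulVec,
          hc Y hYW X (hTW X hX), ← Matrix.mulVec_mulVec]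
        exact (Finset.le_sup hX : CLN_im I X ≤ T.sup (CLN_im I)) (CLN_mem (hI Y hYW u hu))
      exact fun u hu => this hu
    have hm : ∀ m : ℕ, I ≤ T.sup (CLN_im I) ⊔ CLN_im I (Y ^ m) := by
      intro m
      induction m with
      | zero =>
        refine le_trans ?_ le_sup_right
        intro v hv
        have := CLN_mem (X := Y ^ 0) hv
        rwa [pow_zero, Matrix.one_mulVec] at this
      | succ m ihm =>
        refine h.trans (sup_le ?_ le_sup_left)
        rintro _ ⟨u, hu, rfl⟩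
        obtain ⟨a, ha, b, hb, hab⟩ := Submodule.mem_sup.1 (ihm hu)
        obtain ⟨c, hcI, hcb⟩ := hb
        rw [Matrix.mulVecLin_apply, ← hab, Matrix.mulVec_add]
        refine Submodule.add_mem_sup (hK a ha) ?_
        rw [← hcb, Matrix.mulVecLin_apply, Matrix.mulVec_mulVec, ← pow_succ']
        exact CLN_mem hcI
    obtain ⟨m, hm0⟩ := hn Y hYW
    refine (hm m).trans (sup_le le_rfl ?_)
    rintro _ ⟨u, hu, rfl⟩
    rw [hm0, Matrix.mulVecLin_apply, Matrix.zero_mulVec]
    exact Submodule.zero_mem _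

theorem CLN : CLN_stmt := by
  intro n W hn hc I hI0 hI
  obtain ⟨S, hS⟩ : W.FG := IsNoetherian.noetherian W
  have hle : WI W I ≤ I := by
    refine Submodule.span_le.2 ?_
    rintro _ ⟨X, hX, v, hv, rfl⟩
    exact hI X hX v hv
  refine lt_of_le_of_ne hle fun he => hI0 ?_
  refine CLN_fin W hn hc I hI S (fun X hX => hS ▸ Submodule.subset_span hX) ?_
  have h2 : WI W I ≤ S.sup (CLN_im I) := by
    refine Submodule.span_le.2 ?_
    rintro _ ⟨X, hX, v, hv, rfl⟩
    rw [← hS] at hX
    induction hX using Submodule.span_induction with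
    | mem Z hZ => exact (Finset.le_sup (Finset.mem_coe.1 hZ) : CLN_im I Z ≤ S.sup (CLN_im I)) (CLN_mem hv)
    | zero =>
      rw [Matrix.zero_mulVec]
      exact Submodule.zero_mem _
    | add Z Z' _ _ h h' =>
      rw [Matrix.add_mulVec]
      exact Submodule.add_mem _ h h'
    | smul c Z _ h =>
      rw [Matrix.smul_mulVec]
      exact Submodule.smul_mem _ c h
  rwa [he] at h2

end Pool.Agent.VA
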